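import Pool.Agent.H49.GI5

set_option autoImplicit false

namespace Pool.Agent.Results.MP_ba7837_an.Q1

open Pool.Agent.H49.GI

/-- The generic Lebesgue measure preserving automorphism of the line has a nontrivial factor, and
the generic one has a nontrivial root. -/
theorem result :
    (∃ G ⊆ {T : Aut | HasFactor T}, IsGδ G ∧ Dense G) ∧
      ∃ G ⊆ {T : Aut | HasRoot T}, IsGδ G ∧ Dense G :=
  ⟨mem_residual.1 factor, mem_residual.1 (Filter.mem_of_superset flow fun _ => root_of_flow)⟩

end Pool.Agent.Results.MP_ba7837_an.Q1
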