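import Pool.Agent.H49.GI5

set_option autoImplicit false

namespace Pool.Agent.Results.MP_ba7837_an.Q2

open Pool.Agent.H49.GI

/-- The generic Lebesgue measure preserving automorphism of the line embeds in a flow. -/
theorem result : ∃ G ⊆ {T : Aut | InFlow T}, IsGδ G ∧ Dense G := mem_residual.1 flow

end Pool.Agent.Results.MP_ba7837_an.Q2
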